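import Mathlib

/-!
# The heights of the vertices

`off n A w r j` is the height (relative to the row) of the `j`-th vertex (`j < 5`) of the `w`-th
path in row `r`; the row `r` belongs to the ordered pair `(r / n, r % n)`.
-/

namespace Pool.Agent.ConfAll48

open Classical in
/-- height inside of a row -/
noncomputable def off (n : ℕ) (A : ℕ → ℕ → Prop) (w r j : ℕ) : ℤ :=
  if A (r / n) (r % n) ∧ w = r / n then
    (if j = 0 then -(8 * n + 1) else if j = 1 then -(8 * n) else if j = 2 then 0
      else if j = 3 then 8 * n else 8 * n + 1)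
  else if A (r / n) (r % n) ∧ w = r % n then j
  else 20 * n * (w + 1) + j

/-- distance of two rows -/
def row (n : ℕ) : ℤ := 40 * n * n + 100

/-- height of the `k`-th vertex of the `w`-th path -/
noncomputable def H (n : ℕ) (A : ℕ → ℕ → Prop) (w k : ℕ) : ℤ :=
  row n * ((k / 5 : ℕ) : ℤ) + off n A w (k / 5) (k % 5)

variable {n : ℕ} {A : ℕ → ℕ → Prop}

theorem off_le {w : ℕ} (hw : w < n) (r : ℕ) {j : ℕ} (hj : j < 5) :
    off n A w r j ≤ 20 * n * n + 4 := by
  have h1 : (w : ℤ) + 1 ≤ n := by exact_mod_cast hw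
  have h2 : (1 : ℤ) ≤ n := by omega
  have h3 : (j : ℤ) ≤ 4 := by omega
  have h4 : (20 : ℤ) * n * (w + 1) ≤ 20 * n * n := by nlinarith
  have h5 : (8 : ℤ) * n ≤ 20 * n * n := by nlinarith
  unfold off
  split_ifs <;> nlinarith

theorem le_off {w : ℕ} (hw : w < n) (r : ℕ) (j : ℕ) :
    -(8 * n + 1) ≤ off n A w r j := by
  have h2 : (1 : ℤ) ≤ n := by omega
  have h4 : (0 : ℤ) ≤ 20 * n * (w + 1) := by positivity
  unfold off
  split_ifs <;> omega

theorem off_lt {w : ℕ} (hw : w < n) (r : ℕ) {j : ℕ} (hj : j < 4) :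
    off n A w r j < off n A w r (j + 1) := by
  have h2 : (1 : ℤ) ≤ n := by omega
  unfold off
  have : j = 0 ∨ j = 1 ∨ j = 2 ∨ j = 3 := by omega
  rcases this with rfl | rfl | rfl | rfl <;> norm_num <;> split_ifs <;> omega

theorem H_succ {w : ℕ} (hw : w < n) (k : ℕ) : H n A w k < H n A w (k + 1) := by
  unfold H
  by_cases hk : k % 5 < 4
  · have h1 : (k + 1) / 5 = k / 5 := by omega
    have h2 : (k + 1) % 5 = k % 5 + 1 := by omega
    rw [h1, h2]
    have := off_lt (A := A) hw (k / 5) hk
    linarith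
  · have h1 : (k + 1) / 5 = k / 5 + 1 := by omega
    have h2 : (k + 1) % 5 = 0 := by omega
    rw [h1, h2]
    have h3 := off_le (A := A) hw (k / 5) (show k % 5 < 5 by omega)
    have h4 := le_off (A := A) hw (k / 5 + 1) 0
    have h5 : (1 : ℤ) ≤ n := by omega
    have h6 : ((k / 5 + 1 : ℕ) : ℤ) = ((k / 5 : ℕ) : ℤ) + 1 := by push_cast; ring
    rw [h6]
    unfold row
    nlinarith

theorem H_strictMono {w : ℕ} (hw : w < n) : StrictMono (H n A w) :=
  strictMono_nat_of_lt_succ (H_succ hw)

/-- a vertex which is not the middle vertex of a row of its own path has a vertex of the same path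
and row at height difference one -/
theorem exists_near {w : ℕ} (k : ℕ)
    (h : ¬ (A (k / 5 / n) (k / 5 % n) ∧ w = k / 5 / n ∧ k % 5 = 2)) :
    ∃ k', k' / 5 = k / 5 ∧ (k' = k + 1 ∨ k = k' + 1) ∧ (H n A w k' - H n A w k) ^ 2 = 1 := by
  by_cases hA : A (k / 5 / n) (k / 5 % n) ∧ w = k / 5 / n
  · have hj : k % 5 = 0 ∨ k % 5 = 1 ∨ k % 5 = 3 ∨ k % 5 = 4 := by
      have : k % 5 ≠ 2 := fun h' => h ⟨hA.1, hA.2, h'⟩
      omega
    rcases hj with hj | hj | hj | hj
    · refine ⟨k + 1, by omega, Or.inl rfl, ?_⟩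
      have h1 : (k + 1) / 5 = k / 5 := by omega
      have h2 : (k + 1) % 5 = 1 := by omega
      unfold H off
      rw [h1, h2, hj, if_pos hA, if_pos hA]
      norm_num
    · refine ⟨k - 1, by omega, Or.inr (by omega), ?_⟩
      have h1 : (k - 1) / 5 = k / 5 := by omega
      have h2 : (k - 1) % 5 = 0 := by omega
      unfold H off
      rw [h1, h2, hj, if_pos hA, if_pos hA]
      norm_num
    · refine ⟨k + 1, by omega, Or.inl rfl, ?_⟩
      have h1 : (k + 1) / 5 = k / 5 := by omega
      have h2 : (k + 1) % 5 = 4 := by omega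
      unfold H off
      rw [h1, h2, hj, if_pos hA, if_pos hA]
      norm_num
    · refine ⟨k - 1, by omega, Or.inr (by omega), ?_⟩
      have h1 : (k - 1) / 5 = k / 5 := by omega
      have h2 : (k - 1) % 5 = 3 := by omega
      unfold H off
      rw [h1, h2, hj, if_pos hA, if_pos hA]
      norm_num
  · by_cases hk : k % 5 < 4
    · refine ⟨k + 1, by omega, Or.inl rfl, ?_⟩
      have h1 : (k + 1) / 5 = k / 5 := by omega
      have h2 : (k + 1) % 5 = k % 5 + 1 := by omega
      unfold H off
      rw [h1, h2, if_neg hA, if_neg hA]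
      split_ifs
      · push_cast; ring
      · push_cast; ring
    · refine ⟨k - 1, by omega, Or.inr (by omega), ?_⟩
      have h1 : (k - 1) / 5 = k / 5 := by omega
      have h2 : (k - 1) % 5 = 3 := by omega
      have h3 : k % 5 = 4 := by omega
      unfold H off
      rw [h1, h2, h3, if_neg hA, if_neg hA]
      split_ifs
      · push_cast; ring
      · push_cast; ring

/-- the heights near the middle vertex of a row of its own path -/
theorem far {u v : ℕ} (hu : u < n) (hv : v < n) (huv : u ≠ v) {r : ℕ} (hr : r / n = u)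
    (hr' : v ≠ r % n) (k : ℕ) : (8 * n + 1 : ℤ) ^ 2 ≤ (row n * r - H n A v k) ^ 2 := by
  have h1 : (1 : ℤ) ≤ n := by omega
  have key : (8 * n + 1 : ℤ) ≤ H n A v k - row n * r ∨ (8 * n + 1 : ℤ) ≤ row n * r - H n A v k := by
    unfold H
    have hle := off_le (A := A) hv (k / 5) (show k % 5 < 5 by omega)
    have hge := le_off (A := A) hv (k / 5) (k % 5)
    rcases lt_trichotomy (k / 5) r with h | h | h
    · right
      have h2 : ((k / 5 : ℕ) : ℤ) + 1 ≤ r := by exact_mod_cast h
      have h3 : row n * (((k / 5 : ℕ) : ℤ) + 1) ≤ row n * r :=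
        mul_le_mul_of_nonneg_left h2 (by unfold row; positivity)
      unfold row at *
      nlinarith
    · left
      rw [h]
      have h4 : off n A v r (k % 5) = 20 * n * (v + 1) + (k % 5 : ℕ) := by
        unfold off
        rw [if_neg (fun hh => huv (hh.2.trans hr).symm), if_neg fun hh => hr' hh.2]
      rw [h4]
      have h5 : (0 : ℤ) ≤ v := by positivity
      have h6 : (0 : ℤ) ≤ ((k % 5 : ℕ) : ℤ) := by positivity
      nlinarith
    · left
      have h2 : (r : ℤ) + 1 ≤ ((k / 5 : ℕ) : ℤ) := by exact_mod_cast h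
      have h3 : row n * ((r : ℤ) + 1) ≤ row n * ((k / 5 : ℕ) : ℤ) :=
        mul_le_mul_of_nonneg_left h2 (by unfold row; positivity)
      unfold row at *
      nlinarith
  rcases key with h | h <;> nlinarith

end Pool.Agent.ConfAll48
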