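import Mathlib

/-!
# A parameter for which all distances are different

Points `(x i, y i + t * 2 ^ i)`, `i < N`: for all but finitely many `t` the distances of the pairs
of points are pairwise different.
-/

namespace Pool.Agent.ConfAll48

open Set

theorem finite_quad {a b c : ℝ} (ha : a ≠ 0) : {t : ℝ | a * t ^ 2 + b * t + c = 0}.Finite := by
  classical
  let p : Polynomial ℝ := Polynomial.C a * Polynomial.X ^ 2 + Polynomial.C b * Polynomial.X +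
    Polynomial.C c
  have hp : p ≠ 0 := by
    intro h
    have h2 : p.coeff 2 = a := by
      simp [p]
    rw [h, Polynomial.coeff_zero] at h2
    exact ha h2.symm
  refine (p.roots.toFinset.finite_toSet).subset fun t ht => ?_
  change a * t ^ 2 + b * t + c = 0 at ht
  rw [Finset.mem_coe, Multiset.mem_toFinset, Polynomial.mem_roots hp, Polynomial.IsRoot.def]
  simpa [p] using ht

theorem two_pow_sub {i j k l : ℕ} (hij : i < j) (hkl : k < l)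
    (h : (2 : ℤ) ^ j - 2 ^ i = 2 ^ l - 2 ^ k) : i = k ∧ j = l := by
  have aux : ∀ {i j k l : ℕ}, i < j → k < l → (2 : ℤ) ^ j - 2 ^ i = 2 ^ l - 2 ^ k → ¬ i < k := by
    intro i j k l hij hkl h hik
    obtain ⟨a, rfl⟩ := Nat.exists_eq_add_of_lt hij
    obtain ⟨b, rfl⟩ := Nat.exists_eq_add_of_lt hik
    obtain ⟨c, rfl⟩ := Nat.exists_eq_add_of_lt hkl
    have h1 : (2 : ℤ) ^ i * (2 ^ (a + 1) - 1) = 2 ^ i * (2 ^ (b + 1) * (2 ^ (c + 1) - 1)) := by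
      have e1 : (2 : ℤ) ^ (i + a + 1) = 2 ^ i * 2 ^ (a + 1) := by ring
      have e2 : (2 : ℤ) ^ (i + b + 1) = 2 ^ i * 2 ^ (b + 1) := by ring
      have e3 : (2 : ℤ) ^ (i + b + 1 + c + 1) = 2 ^ i * 2 ^ (b + 1) * 2 ^ (c + 1) := by
        ring
      rw [e1, e2, e3] at h
      linear_combination h
    have h2 := mul_left_cancel₀ (pow_ne_zero i (two_ne_zero' ℤ)) h1
    rw [pow_succ, pow_succ (2 : ℤ) b] at h2
    have h3 : (2 : ℤ) * (2 ^ a - 2 ^ b * (2 ^ (c + 1) - 1)) = 1 := by linarith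
    omega
  have h1 := aux hij hkl h
  have h2 := aux hkl hij h.symm
  have h3 : i = k := by omega
  subst h3
  refine ⟨rfl, ?_⟩
  have h4 : (2 : ℤ) ^ j = 2 ^ l := by linarith
  exact Nat.pow_right_injective (le_refl 2) (by exact_mod_cast h4)

theorem lead_ne {i j k l : ℕ} (hij : i < j) (hkl : k < l) (h : ¬ (i = k ∧ j = l)) :
    ((2 : ℝ) ^ i - 2 ^ j) ^ 2 - ((2 : ℝ) ^ k - 2 ^ l) ^ 2 ≠ 0 := by
  intro h0
  have h1 : (((2 : ℤ) ^ j - 2 ^ i : ℤ) : ℝ) ^ 2 = (((2 : ℤ) ^ l - 2 ^ k : ℤ) : ℝ) ^ 2 := by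
    push_cast
    linarith
  have hp : ∀ {i j : ℕ}, i < j → (0 : ℤ) ≤ 2 ^ j - 2 ^ i := fun hij =>
    sub_nonneg.2 (pow_le_pow_right₀ (by norm_num) hij.le)
  have h2 : (2 : ℤ) ^ j - 2 ^ i = 2 ^ l - 2 ^ k := by
    have h1' : ((2 : ℤ) ^ j - 2 ^ i) ^ 2 = (2 ^ l - 2 ^ k) ^ 2 := by exact_mod_cast h1
    exact (pow_left_inj₀ (hp hij) (hp hkl) two_ne_zero).1 h1'
  exact h (two_pow_sub hij hkl h2)

/-- The generic parameter. -/
theorem exists_param (N : ℕ) (x y : ℕ → ℝ) {δ : ℝ} (hδ : 0 < δ) :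
    ∃ t : ℝ, 0 < t ∧ t < δ ∧ ∀ i j k l, i < j → j < N → k < l → l < N →
      (x i - x j) ^ 2 + ((y i + t * 2 ^ i) - (y j + t * 2 ^ j)) ^ 2 =
        (x k - x l) ^ 2 + ((y k + t * 2 ^ k) - (y l + t * 2 ^ l)) ^ 2 → i = k ∧ j = l := by
  classical
  let bad : (Fin N × Fin N) × (Fin N × Fin N) → Set ℝ := fun q =>
    {t | q.1.1 < q.1.2 ∧ q.2.1 < q.2.2 ∧ ¬ (q.1.1 = q.2.1 ∧ q.1.2 = q.2.2) ∧
      (x q.1.1 - x q.1.2) ^ 2 + ((y q.1.1 + t * 2 ^ (q.1.1 : ℕ)) - (y q.1.2 + t * 2 ^ (q.1.2 : ℕ))) ^ 2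
      = (x q.2.1 - x q.2.2) ^ 2 +
        ((y q.2.1 + t * 2 ^ (q.2.1 : ℕ)) - (y q.2.2 + t * 2 ^ (q.2.2 : ℕ))) ^ 2}
  have hbad : ∀ q, (bad q).Finite := by
    rintro ⟨⟨i, j⟩, ⟨k, l⟩⟩
    by_cases h : (i < j ∧ k < l) ∧ ¬ (i = k ∧ j = l)
    · have hne : ¬ ((i : ℕ) = k ∧ (j : ℕ) = l) := fun hh => h.2 ⟨Fin.ext hh.1, Fin.ext hh.2⟩
      have hl := lead_ne (i := i) (j := j) (k := k) (l := l) h.1.1 h.1.2 hne
      refine (finite_quad (b := 2 * (y i - y j) * ((2 : ℝ) ^ (i : ℕ) - 2 ^ (j : ℕ)) -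
        2 * (y k - y l) * ((2 : ℝ) ^ (k : ℕ) - 2 ^ (l : ℕ)))
        (c := (x i - x j) ^ 2 + (y i - y j) ^ 2 - (x k - x l) ^ 2 - (y k - y l) ^ 2) hl).subset ?_
      rintro t ⟨-, -, -, ht⟩
      change _ * t ^ 2 + _ * t + _ = 0
      dsimp only at ht
      linear_combination ht
    · convert finite_empty
      rw [eq_empty_iff_forall_notMem]
      rintro t ⟨h1, h2, h3, -⟩
      exact h ⟨⟨h1, h2⟩, h3⟩
  have hfin : (⋃ q, bad q).Finite := finite_iUnion hbad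
  obtain ⟨t, ht, htb⟩ := ((Ioo_infinite hδ).sdiff hfin).nonempty
  refine ⟨t, ht.1, ht.2, fun i j k l hij hj hkl hl h => ?_⟩
  by_contra hne
  apply htb
  rw [mem_iUnion]
  exact ⟨((⟨i, hij.trans hj⟩, ⟨j, hj⟩), (⟨k, hkl.trans hl⟩, ⟨l, hl⟩)), hij, hkl,
    fun hh => hne ⟨congrArg Fin.val hh.1, congrArg Fin.val hh.2⟩, h⟩

end Pool.Agent.ConfAll48
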