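import Pool.Agent.ConfAll48.Path
import Pool.Agent.ConfAll48.Heights
import Pool.Agent.ConfAll48.Param

/-!
# Every finite graph is the conflict graph of a plane drawing
-/

namespace Pool.Agent.ConfAll48

open Set Pool.Agent.ConfStr48

variable (n : ℕ) (A : ℕ → ℕ → Prop)

/-- number of vertices of a path -/
def len (n : ℕ) : ℕ := 5 * (n * n + 1)

/-- first coordinate (the height) of a vertex -/
noncomputable def xx (i : ℕ) : ℝ := H n A (i / len n) (i % len n)

/-- second coordinate of a vertex, unperturbed -/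
noncomputable def yy (i : ℕ) : ℝ := 4 * (i / len n : ℕ) + (i % len n % 2 : ℕ)

variable {n A}

theorem div_mod_of {w i : ℕ} (h1 : w * len n ≤ i) (h2 : i ≤ w * len n + (len n - 1)) :
    i / len n = w ∧ i % len n = i - w * len n := by
  have h : 0 < len n := by unfold len; omega
  have h3 : i / len n = w := Nat.div_eq_of_lt_le h1 (by rw [add_mul, one_mul]; omega)
  refine ⟨h3, ?_⟩
  have h4 := Nat.div_add_mod i (len n)
  rw [h3, mul_comm] at h4
  omega

theorem xx_of {w i : ℕ} (h1 : w * len n ≤ i) (h2 : i ≤ w * len n + (len n - 1)) :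
    xx n A i = H n A w (i - w * len n) := by
  obtain ⟨h3, h4⟩ := div_mod_of h1 h2
  unfold xx
  rw [h3, h4]

theorem yy_of {w i : ℕ} (h1 : w * len n ≤ i) (h2 : i ≤ w * len n + (len n - 1)) :
    yy n i = 4 * w + ((i - w * len n) % 2 : ℕ) := by
  obtain ⟨h3, h4⟩ := div_mod_of h1 h2
  unfold yy
  rw [h3, h4]

theorem mod_two_cast (a : ℕ) : (0 : ℝ) ≤ ((a % 2 : ℕ) : ℝ) ∧ ((a % 2 : ℕ) : ℝ) ≤ 1 := by
  refine ⟨Nat.cast_nonneg _, ?_⟩
  have : a % 2 ≤ 1 := by omega
  exact_mod_cast this

theorem mod_two_succ (a : ℕ) : (((a + 1) % 2 : ℕ) : ℝ) = 1 - ((a % 2 : ℕ) : ℝ) := by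
  rcases Nat.mod_two_eq_zero_or_one a with h | h
  · rw [h, show (a + 1) % 2 = 1 by omega]; norm_num
  · rw [h, show (a + 1) % 2 = 0 by omega]; norm_num

/-- **Every finite graph is a conflict graph** (on `Fin n`). -/
theorem fin_isConflictGraph (G : SimpleGraph (Fin n)) : IsConflictGraph G := by
  classical
  -- adjacency on natural numbers
  let A : ℕ → ℕ → Prop := fun u v => ∃ (hu : u < n) (hv : v < n), G.Adj ⟨u, hu⟩ ⟨v, hv⟩
  have hlen : len n = 5 * (n * n + 1) := rfl
  have hK : 2 ≤ len n := by rw [hlen]; omega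
  have hδ : (0 : ℝ) < 1 / (8 * 2 ^ (n * len n)) := by positivity
  obtain ⟨t, ht0, ht1, ht⟩ := exists_param (n * len n) (xx n A) (yy n) hδ
  -- the perturbation is small
  have hsmall : ∀ i < (n * len n), 0 ≤ t * 2 ^ i ∧ t * 2 ^ i ≤ 1 / 8 := by
    intro i hi
    refine ⟨by positivity, ?_⟩
    have h1 : (2 : ℝ) ^ i ≤ 2 ^ (n * len n) := pow_le_pow_right₀ (by norm_num) hi.le
    have h2 : t * 2 ^ i ≤ 1 / (8 * 2 ^ (n * len n)) * 2 ^ (n * len n) := by
      refine mul_le_mul ht1.le h1 (by positivity) hδ.le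
    refine h2.trans (le_of_eq ?_)
    field_simp
  have hidx : ∀ {w i : ℕ}, w < n → i ≤ w * len n + (len n - 1) → i < (n * len n) := by
    intro w i hw hi
    have h : (w + 1) * len n ≤ n * len n := Nat.mul_le_mul_right _ hw
    rw [add_mul, one_mul] at h
    omega
  let Y : ℕ → ℝ := fun i => yy n i + t * 2 ^ i
  have hY : ∀ {w i : ℕ}, w < n → w * len n ≤ i → i ≤ w * len n + (len n - 1) →
      4 * (w : ℝ) + ((i - w * len n) % 2 : ℕ) ≤ Y i ∧
        Y i ≤ 4 * (w : ℝ) + ((i - w * len n) % 2 : ℕ) + 1 / 8 := by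
    intro w i hw h1 h2
    have h3 := yy_of (n := n) h1 h2
    have h4 := hsmall i (hidx hw h2)
    change _ ≤ yy n i + t * 2 ^ i ∧ yy n i + t * 2 ^ i ≤ _
    rw [h3]
    constructor <;> linarith [h4.1, h4.2]
  have hmono : ∀ w < n, ∀ i j, w * len n ≤ i → i < j → j ≤ w * len n + (len n - 1) →
      xx n A i < xx n A j := by
    intro w hw i j h1 h2 h3
    rw [xx_of (n := n) (A := A) h1 (by omega), xx_of (n := n) (A := A) (by omega) h3]
    have := H_strictMono (A := A) hw (show i - w * len n < j - w * len n by omega)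
    exact_mod_cast this
  let c : Cfg :=
    { n := n
      K := len n
      X := xx n A
      Y := Y
      hK := hK
      mono' := hmono
      sep' := by
        intro w w' hww hw' i j h1 h2 h3 h4
        have e1 := (hY (hww.trans hw') h1 h2).2
        have e2 := (hY hw' h3 h4).1
        have e3 := (mod_two_cast (i - w * len n)).2
        have e4 := (mod_two_cast (j - w' * len n)).1
        have e5 : (w : ℝ) + 1 ≤ w' := by exact_mod_cast hww
        linarith
      cross' := by
        intro w hw i h1 h2 h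
        have x1 := hmono w hw i (i + 1) h1 (by omega) (by omega)
        have x2 := hmono w hw (i + 1) (i + 2) (by omega) (by omega) h2
        have y0 := hY hw h1 (show i ≤ w * len n + (len n - 1) by omega)
        have y1 := hY hw (show w * len n ≤ i + 1 by omega) (show i + 1 ≤ w * len n + (len n - 1) by omega)
        have y2 := hY hw (show w * len n ≤ i + 2 by omega) h2
        have e1 : i + 1 - w * len n = (i - w * len n) + 1 := by omega
        have e2 : i + 2 - w * len n = (i - w * len n) + 1 + 1 := by omega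
        rw [e1, mod_two_succ] at y1
        rw [e2, mod_two_succ, mod_two_succ] at y2
        rcases Nat.mod_two_eq_zero_or_one (i - w * len n) with hm | hm
        · rw [hm] at y0 y1 y2
          push_cast at y0 y1 y2
          have a1 : 0 < Y (i + 1) - Y i := by linarith [y0.1, y0.2, y1.1, y1.2]
          have a2 : Y (i + 2) - Y (i + 1) < 0 := by linarith [y2.1, y2.2, y1.1, y1.2]
          have b1 : (xx n A (i + 1) - xx n A i) * (Y (i + 2) - Y (i + 1)) < 0 :=
            mul_neg_of_pos_of_neg (by linarith) a2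
          have b2 : 0 < (Y (i + 1) - Y i) * (xx n A (i + 2) - xx n A (i + 1)) :=
            mul_pos a1 (by linarith)
          linarith
        · rw [hm] at y0 y1 y2
          push_cast at y0 y1 y2
          have a1 : Y (i + 1) - Y i < 0 := by linarith [y0.1, y0.2, y1.1, y1.2]
          have a2 : 0 < Y (i + 2) - Y (i + 1) := by linarith [y2.1, y2.2, y1.1, y1.2]
          have b1 : 0 < (xx n A (i + 1) - xx n A i) * (Y (i + 2) - Y (i + 1)) :=
            mul_pos (by linarith) a2
          have b2 : (Y (i + 1) - Y i) * (xx n A (i + 2) - xx n A (i + 1)) < 0 :=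
            mul_neg_of_neg_of_pos a1 (by linarith)
          linarith
      dne' := by
        intro i j k l hij hj hkl hl h
        exact ht i j k l hij hj hkl hl h }
  refine Cfg.isConflictGraph (c := c) G ?_
  intro u v huv
  have hu : (u : ℕ) < n := u.2
  have hv : (v : ℕ) < n := v.2
  have hn : 1 ≤ n := by omega
  have hnR : (1 : ℝ) ≤ n := by exact_mod_cast hn
  have huv' : (u : ℕ) ≠ v := fun h => huv (Fin.ext h)
  change G.Adj u v ↔ ∃ i, (u : ℕ) * len n ≤ i ∧ i ≤ (u : ℕ) * len n + (len n - 1) ∧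
    ∃ m, (v : ℕ) * len n ≤ m ∧ m ≤ (v : ℕ) * len n + (len n - 1) ∧
      ∀ r, (u : ℕ) * len n ≤ r → r ≤ (u : ℕ) * len n + (len n - 1) → r ≠ i →
        (xx n A i - xx n A m) ^ 2 + (Y i - Y m) ^ 2 < (xx n A i - xx n A r) ^ 2 + (Y i - Y r) ^ 2
  constructor
  · intro hadj
    set r0 : ℕ := u * n + v with hr0
    have hr0n : r0 / n = u := by
      rw [hr0, mul_comm, Nat.mul_add_div (by omega), Nat.div_eq_of_lt hv, add_zero]
    have hr0m : r0 % n = v := by
      rw [hr0, mul_comm, Nat.mul_add_mod, Nat.mod_eq_of_lt hv]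
    have hr0lt : 5 * r0 + 4 < len n := by
      have h1 : (u + 1 : ℕ) * n ≤ n * n := Nat.mul_le_mul_right _ hu
      rw [add_mul, one_mul] at h1
      rw [hlen]; omega
    have hAr : A (r0 / n) (r0 % n) := by
      rw [hr0n, hr0m]; exact ⟨hu, hv, hadj⟩
    have hAr' : A (r0 / n) (r0 % n) ∧ (u : ℕ) = r0 / n := ⟨hAr, hr0n.symm⟩
    have hAv : ¬ (A (r0 / n) (r0 % n) ∧ (v : ℕ) = r0 / n) := by
      rintro ⟨-, h⟩
      rw [hr0n] at h
      exact huv' h.symm
    have hAv' : A (r0 / n) (r0 % n) ∧ (v : ℕ) = r0 % n := ⟨hAr, hr0m.symm⟩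
    -- heights
    have q1 : (5 * r0 + 2) / 5 = r0 := by omega
    have q2 : (5 * r0 + 2) % 5 = 2 := by omega
    have q3 : (5 * r0) / 5 = r0 := by omega
    have q4 : (5 * r0) % 5 = 0 := by omega
    have q5 : (5 * r0 + 1) / 5 = r0 := by omega
    have q6 : (5 * r0 + 1) % 5 = 1 := by omega
    have q7 : (5 * r0 + 3) / 5 = r0 := by omega
    have q8 : (5 * r0 + 3) % 5 = 3 := by omega
    have Hi : H n A u (5 * r0 + 2) = row n * r0 := by
      unfold H off
      rw [q1, q2, if_pos hAr']
      norm_num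
    have Hm : H n A v (5 * r0) = row n * r0 := by
      unfold H off
      rw [q3, q4, if_neg hAv, if_pos hAv']
      norm_num
    have Hlo : H n A u (5 * r0 + 1) = row n * r0 - 8 * n := by
      unfold H off
      rw [q5, q6, if_pos hAr']
      norm_num
      ring
    have Hhi : H n A u (5 * r0 + 3) = row n * r0 + 8 * n := by
      unfold H off
      rw [q7, q8, if_pos hAr']
      norm_num
    refine ⟨u * len n + (5 * r0 + 2), by omega, by omega, v * len n + 5 * r0, by omega, by omega, ?_⟩
    intro r hr1 hr2 hri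
    have xi : xx n A (u * len n + (5 * r0 + 2)) = ((row n * r0 : ℤ) : ℝ) := by
      rw [xx_of (n := n) (A := A) (w := u) (by omega) (by omega), ← Hi]
      congr 3
      omega
    have xm : xx n A (v * len n + 5 * r0) = ((row n * r0 : ℤ) : ℝ) := by
      rw [xx_of (n := n) (A := A) (w := v) (by omega) (by omega), ← Hm]
      congr 3
      omega
    have xr : (8 * (n : ℝ)) ^ 2 ≤ (xx n A (u * len n + (5 * r0 + 2)) - xx n A r) ^ 2 := by
      rw [xi, xx_of (n := n) (A := A) (w := u) hr1 hr2]
      have key : (8 * (n : ℤ)) ^ 2 ≤ (row n * r0 - H n A u (r - u * len n)) ^ 2 := by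
        have hs := H_strictMono (A := A) hu
        rcases Nat.lt_or_ge (r - u * len n) (5 * r0 + 2) with h | h
        · have h1 : H n A u (r - u * len n) ≤ H n A u (5 * r0 + 1) := hs.monotone (by omega)
          rw [Hlo] at h1
          have h2 : (0 : ℤ) ≤ 8 * n := by positivity
          nlinarith
        · have h1 : H n A u (5 * r0 + 3) ≤ H n A u (r - u * len n) := hs.monotone (by
            have : r - u * len n ≠ 5 * r0 + 2 := by
              intro h3
              apply hri
              omega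
            omega)
          rw [Hhi] at h1
          have h2 : (0 : ℤ) ≤ 8 * n := by positivity
          nlinarith
      exact_mod_cast key
    have yi := hY hu (show (u : ℕ) * len n ≤ u * len n + (5 * r0 + 2) by omega) (by omega)
    have ym := hY hv (show (v : ℕ) * len n ≤ v * len n + 5 * r0 by omega) (by omega)
    have m1 : (u * len n + (5 * r0 + 2) - u * len n) % 2 = (v * len n + 5 * r0 - v * len n) % 2 := by omega
    rw [m1] at yi
    have hum : |(u : ℝ) - v| ≤ n - 1 := by
      have h1 : (u : ℝ) + 1 ≤ n := by exact_mod_cast hu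
      have h2 : (v : ℝ) + 1 ≤ n := by exact_mod_cast hv
      have h3 : (0 : ℝ) ≤ (u : ℕ) := Nat.cast_nonneg _
      have h4 : (0 : ℝ) ≤ (v : ℕ) := Nat.cast_nonneg _
      rw [abs_le]
      constructor <;> linarith
    rw [abs_le] at hum
    have hyd : (Y (u * len n + (5 * r0 + 2)) - Y (v * len n + 5 * r0)) ^ 2 ≤ (4 * (n : ℝ)) ^ 2 := by
      have a1 : Y (u * len n + (5 * r0 + 2)) - Y (v * len n + 5 * r0) ≤ 4 * n := by
        linarith [yi.2, ym.1, hum.2]
      have a2 : -(4 * (n : ℝ)) ≤ Y (u * len n + (5 * r0 + 2)) - Y (v * len n + 5 * r0) := by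
        linarith [yi.1, ym.2, hum.1]
      nlinarith
    rw [xi, xm]
    rw [xi] at xr
    nlinarith [sq_nonneg (Y (u * len n + (5 * r0 + 2)) - Y r)]
  · rintro ⟨i, hi1, hi2, m, hm1, hm2, hall⟩
    set a := i - u * len n with ha
    set b := m - v * len n with hb
    have xi := xx_of (n := n) (A := A) hi1 hi2
    have xm := xx_of (n := n) (A := A) hm1 hm2
    have yi := hY hu hi1 hi2
    have ym := hY hv hm1 hm2
    have yia := mod_two_cast (i - u * len n)
    have yma := mod_two_cast (m - v * len n)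
    -- the second coordinates of different paths
    have hyd : 8 < (Y i - Y m) ^ 2 := by
      rcases lt_or_gt_of_ne huv' with h | h
      · have h1 : (u : ℝ) + 1 ≤ v := by exact_mod_cast h
        have h2 : 23 / 8 ≤ Y m - Y i := by linarith [yi.2, ym.1, yia.2, yma.1]
        nlinarith
      · have h1 : (v : ℝ) + 1 ≤ u := by exact_mod_cast h
        have h2 : 23 / 8 ≤ Y i - Y m := by linarith [yi.1, ym.2, yia.1, yma.2]
        nlinarith
    have haK : a < len n := by omega
    by_cases hmid : A (a / 5 / n) (a / 5 % n) ∧ (u : ℕ) = a / 5 / n ∧ a % 5 = 2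
    · obtain ⟨hA, hua, ha2⟩ := hmid
      by_cases hva : (v : ℕ) = a / 5 % n
      · obtain ⟨h1, h2, h3⟩ := hA
        have e1 : (⟨a / 5 / n, h1⟩ : Fin n) = u := Fin.ext hua.symm
        have e2 : (⟨a / 5 % n, h2⟩ : Fin n) = v := Fin.ext hva.symm
        rw [e1, e2] at h3
        exact h3
      · exfalso
        have hfar := far (A := A) hu hv huv' (r := a / 5) hua.symm hva b
        have Hi : H n A u a = row n * ((a / 5 : ℕ) : ℤ) := by
          unfold H off
          rw [if_pos ⟨hA, hua⟩, ha2]
          norm_num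
        have Hi' : H n A u (a + 1) = row n * ((a / 5 : ℕ) : ℤ) + 8 * n := by
          have h1 : (a + 1) / 5 = a / 5 := by omega
          have h2 : (a + 1) % 5 = 3 := by omega
          unfold H off
          rw [h1, h2, if_pos ⟨hA, hua⟩]
          norm_num
        have h5 : i + 1 ≤ u * len n + (len n - 1) := by
          have := hlen
          omega
        have h6 := hall (i + 1) (by omega) h5 (by omega)
        rw [xx_of (n := n) (A := A) (show u * len n ≤ i + 1 by omega) h5, xi, xm,
          show i + 1 - u * len n = a + 1 by omega, ← ha, ← hb, Hi, Hi'] at h6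
        have yi1 := hY hu (show u * len n ≤ i + 1 by omega) h5
        have yi1a := mod_two_cast (i + 1 - u * len n)
        have hfar' : (8 * (n : ℝ) + 1) ^ 2 ≤
            (((row n * ((a / 5 : ℕ) : ℤ) : ℤ) : ℝ) - ((H n A v b : ℤ) : ℝ)) ^ 2 := by
          exact_mod_cast hfar
        have e3 : ((row n * ((a / 5 : ℕ) : ℤ) + 8 * (n : ℤ) : ℤ) : ℝ) =
            ((row n * ((a / 5 : ℕ) : ℤ) : ℤ) : ℝ) + 8 * n := by push_cast; ring
        rw [e3] at h6
        have hy1 : (Y i - Y (i + 1)) ^ 2 ≤ 2 := by
          have b1 : Y i - Y (i + 1) ≤ 9 / 8 := by linarith [yi.2, yi1.1, yia.2, yi1a.1]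
          have b2 : -(9 / 8) ≤ Y i - Y (i + 1) := by linarith [yi.1, yi1.2, yia.1, yi1a.2]
          nlinarith
        have h7 : (((row n * ((a / 5 : ℕ) : ℤ) : ℤ) : ℝ) -
            (((row n * ((a / 5 : ℕ) : ℤ) : ℤ) : ℝ) + 8 * n)) ^ 2 = (8 * (n : ℝ)) ^ 2 := by ring
        rw [h7] at h6
        nlinarith
    · exfalso
      obtain ⟨a', ha'1, ha'2, ha'3⟩ := exists_near (A := A) (w := u) a hmid
      have haK' : a' < len n := by
        have := hlen
        omega
      have h6 := hall (u * len n + a') (by omega) (by omega) (by omega)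
      have h7 : u * len n + a' - u * len n = a' := by omega
      rw [xx_of (n := n) (A := A) (show u * len n ≤ u * len n + a' by omega)
        (show u * len n + a' ≤ u * len n + (len n - 1) by omega), h7, xi] at h6
      have e1 : (((H n A u a : ℤ) : ℝ) - ((H n A u a' : ℤ) : ℝ)) ^ 2 = 1 := by
        have h8 : (H n A u a - H n A u a') ^ 2 = 1 := by rw [← ha'3]; ring
        exact_mod_cast h8
      rw [e1] at h6
      have yi1 := hY hu (show u * len n ≤ u * len n + a' by omega)
        (show u * len n + a' ≤ u * len n + (len n - 1) by omega)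
      have yi1a := mod_two_cast (u * len n + a' - u * len n)
      have hy1 : (Y i - Y (u * len n + a')) ^ 2 ≤ 2 := by
        have b1 : Y i - Y (u * len n + a') ≤ 9 / 8 := by linarith [yi.2, yi1.1, yia.2, yi1a.1]
        have b2 : -(9 / 8) ≤ Y i - Y (u * len n + a') := by linarith [yi.1, yi1.2, yia.1, yi1a.2]
        nlinarith
      nlinarith [sq_nonneg (((H n A u a : ℤ) : ℝ) - xx n A m)]

/-- `IsConflictGraph` is invariant under isomorphism. -/
theorem isConflictGraph_of_iso {V W : Type*} {G : SimpleGraph V} {G' : SimpleGraph W}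
    (e : G ≃g G') (h : IsConflictGraph G') : IsConflictGraph G := by
  obtain ⟨D, h1, h2, C, hC, hK, hadj⟩ := h
  refine ⟨D, h1, h2, fun v => C (e v), hC.comp e.injective, fun K => ?_, fun u v => ?_⟩
  · rw [hK K]
    constructor
    · rintro ⟨w, rfl⟩
      exact ⟨e.symm w, by simp⟩
    · rintro ⟨v, rfl⟩
      exact ⟨e v, rfl⟩
  · rw [← e.map_adj_iff, hadj]
    constructor
    · rintro ⟨h3, h4⟩
      exact ⟨fun h => h3 (by rw [h]), h4⟩
    · rintro ⟨h3, h4⟩
      exact ⟨fun h => h3 (e.injective h), h4⟩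

/-- **Every finite graph is a conflict graph.** -/
theorem isConflictGraph_of_finite {V : Type*} [Finite V] (G : SimpleGraph V) :
    IsConflictGraph G := by
  obtain ⟨n, ⟨e⟩⟩ := Finite.exists_equiv_fin V
  exact isConflictGraph_of_iso (SimpleGraph.Iso.map e G) (fin_isConflictGraph _)

end Pool.Agent.ConfAll48
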