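import Pool.Agent.ConfStr48.Defs

/-!
# Plane drawings whose components are monotone paths in disjoint horizontal strips

A configuration consists of `n` paths with `K` vertices each; the vertices of the `w`-th path are
`P i`, `w * K ≤ i < w * K + K`, with increasing first coordinates; the paths lie in disjoint
strips.  We prove that this is a plane drawing, determine its special points and its components,
and express `Sees` by distances between the vertices.
-/

namespace Pool.Agent.ConfAll48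

open Set Pool.Agent.ConfStr48

/-- `n` paths with `K` vertices each -/
structure Cfg where
  /-- number of paths -/
  n : ℕ
  /-- number of vertices of each path -/
  K : ℕ
  /-- first coordinates -/
  X : ℕ → ℝ
  /-- second coordinates -/
  Y : ℕ → ℝ
  hK : 2 ≤ K
  mono' : ∀ w < n, ∀ i j, w * K ≤ i → i < j → j ≤ w * K + (K - 1) → X i < X j
  sep' : ∀ w w', w < w' → w' < n → ∀ i j, w * K ≤ i → i ≤ w * K + (K - 1) → w' * K ≤ j →
    j ≤ w' * K + (K - 1) → Y i < Y j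
  cross' : ∀ w < n, ∀ i, w * K ≤ i → i + 2 ≤ w * K + (K - 1) →
    (X (i + 1) - X i) * (Y (i + 2) - Y (i + 1)) ≠ (Y (i + 1) - Y i) * (X (i + 2) - X (i + 1))
  dne' : ∀ i j k l, i < j → j < n * K → k < l → l < n * K →
    (X i - X j) ^ 2 + (Y i - Y j) ^ 2 = (X k - X l) ^ 2 + (Y k - Y l) ^ 2 → i = k ∧ j = l

namespace Cfg

variable (c : Cfg)

/-- first vertex of a path -/
def lo (k : ℕ) : ℕ := k * c.K

/-- last vertex of a path -/
def hi (k : ℕ) : ℕ := k * c.K + (c.K - 1)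

/-- number of vertices -/
def N : ℕ := c.n * c.K

/-- the `i`-th vertex -/
noncomputable def P (i : ℕ) : Plane := !₂[c.X i, c.Y i]

@[simp] theorem P_zero (i : ℕ) : c.P i 0 = c.X i := by simp [P]

@[simp] theorem P_one (i : ℕ) : c.P i 1 = c.Y i := by simp [P]

/-- squared distance -/
noncomputable def d2 (i j : ℕ) : ℝ := (c.X i - c.X j) ^ 2 + (c.Y i - c.Y j) ^ 2

theorem d2_nonneg (i j : ℕ) : 0 ≤ c.d2 i j := by unfold d2; positivity

theorem d2_comm (i j : ℕ) : c.d2 i j = c.d2 j i := by unfold d2; ring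

theorem dist_P (i j : ℕ) : dist (c.P i) (c.P j) = Real.sqrt (c.d2 i j) := by
  rw [EuclideanSpace.dist_eq, Fin.sum_univ_two]
  congr 1
  simp only [P_zero, P_one, Real.dist_eq, sq_abs, d2]

theorem dist_P_le {i j k l : ℕ} :
    dist (c.P i) (c.P j) ≤ dist (c.P k) (c.P l) ↔ c.d2 i j ≤ c.d2 k l := by
  rw [dist_P, dist_P, Real.sqrt_le_sqrt_iff (c.d2_nonneg _ _)]

theorem dist_P_lt {i j k l : ℕ} :
    dist (c.P i) (c.P j) < dist (c.P k) (c.P l) ↔ c.d2 i j < c.d2 k l := by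
  rw [← not_le, dist_P_le, not_le]

theorem dist_P_eq {i j k l : ℕ} :
    dist (c.P i) (c.P j) = dist (c.P k) (c.P l) ↔ c.d2 i j = c.d2 k l := by
  rw [le_antisymm_iff, dist_P_le, dist_P_le, ← le_antisymm_iff]

variable {c}

theorem mono {k i j : ℕ} (hk : k < c.n) (h1 : c.lo k ≤ i) (hij : i < j) (hj : j ≤ c.hi k) :
    c.X i < c.X j := c.mono' k hk i j h1 hij hj

theorem lo_lt_hi (c : Cfg) (k : ℕ) : c.lo k < c.hi k := by
  have := c.hK
  unfold lo hi; omega

theorem hi_lt {k : ℕ} (hk : k < c.n) : c.hi k < c.N := by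
  have := c.hK
  have h : (k + 1) * c.K ≤ c.n * c.K := Nat.mul_le_mul_right _ hk
  rw [add_mul, one_mul] at h
  unfold hi N; omega

/-- the component of an index -/
def comp (c : Cfg) (i : ℕ) : ℕ := i / c.K

theorem comp_lt {i : ℕ} (h : i < c.N) : c.comp i < c.n := by
  unfold comp
  exact Nat.div_lt_of_lt_mul (by rw [mul_comm]; exact h)

theorem comp_spec (c : Cfg) (i : ℕ) : c.lo (c.comp i) ≤ i ∧ i ≤ c.hi (c.comp i) := by
  have := c.hK
  have h := Nat.div_add_mod i c.K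
  have h2 := Nat.mod_lt i (show 0 < c.K by omega)
  unfold comp lo hi
  rw [mul_comm]
  omega

theorem comp_eq {k i : ℕ} (h1 : c.lo k ≤ i) (h2 : i ≤ c.hi k) : c.comp i = k := by
  have := c.hK
  unfold comp
  unfold lo at h1
  unfold hi at h2
  exact Nat.div_eq_of_lt_le h1 (by rw [add_mul, one_mul]; omega)

theorem sepY {k l : ℕ} (hkl : k < l) (hl : l < c.n) {i j : ℕ} (h1 : c.lo k ≤ i) (h2 : i ≤ c.hi k)
    (h3 : c.lo l ≤ j) (h4 : j ≤ c.hi l) : c.Y i < c.Y j := c.sep' k l hkl hl i j h1 h2 h3 h4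

/-- the `k`-th component: a polygonal path -/
def L (c : Cfg) (k : ℕ) : Set Plane := ⋃ i ∈ Ico (c.lo k) (c.hi k), segment ℝ (c.P i) (c.P (i + 1))

open Classical in
/-- the drawing -/
noncomputable def D (c : Cfg) : Finset (Sym2 Plane) :=
  (Finset.range c.n).biUnion fun k =>
    (Finset.Ico (c.lo k) (c.hi k)).image fun i => s(c.P i, c.P (i + 1))

theorem mem_D {s : Sym2 Plane} :
    s ∈ c.D ↔ ∃ k < c.n, ∃ i, c.lo k ≤ i ∧ i < c.hi k ∧ s = s(c.P i, c.P (i + 1)) := by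
  unfold D
  simp only [Finset.mem_biUnion, Finset.mem_range, Finset.mem_image, Finset.mem_Ico]
  constructor
  · rintro ⟨k, hk, i, ⟨h1, h2⟩, rfl⟩
    exact ⟨k, hk, i, h1, h2, rfl⟩
  · rintro ⟨k, hk, i, h1, h2, rfl⟩
    exact ⟨k, hk, i, ⟨h1, h2⟩, rfl⟩

theorem seg_mk (a b : Plane) : seg s(a, b) = segment ℝ a b := by
  ext x
  constructor
  · rintro ⟨c, d, h, hx⟩
    rw [Sym2.eq_iff] at h
    rcases h with ⟨rfl, rfl⟩ | ⟨rfl, rfl⟩
    · exact hx
    · rw [segment_symm]; exact hx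
  · intro hx
    exact ⟨a, b, rfl, hx⟩

theorem seg_le {a b z : Plane} {e : Fin 2} {r : ℝ} (hz : z ∈ segment ℝ a b) (ha : a e ≤ r)
    (hb : b e ≤ r) : z e ≤ r := by
  obtain ⟨s, t, hs, ht, hst, rfl⟩ := hz
  simp only [PiLp.add_apply, PiLp.smul_apply, smul_eq_mul]
  have hr : r = s * r + t * r := by rw [← add_mul, hst, one_mul]
  linarith [mul_le_mul_of_nonneg_left ha hs, mul_le_mul_of_nonneg_left hb ht]

theorem le_seg {a b z : Plane} {e : Fin 2} {r : ℝ} (hz : z ∈ segment ℝ a b) (ha : r ≤ a e)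
    (hb : r ≤ b e) : r ≤ z e := by
  obtain ⟨s, t, hs, ht, hst, rfl⟩ := hz
  simp only [PiLp.add_apply, PiLp.smul_apply, smul_eq_mul]
  have hr : r = s * r + t * r := by rw [← add_mul, hst, one_mul]
  linarith [mul_le_mul_of_nonneg_left ha hs, mul_le_mul_of_nonneg_left hb ht]

theorem mem_L {k : ℕ} {x : Plane} :
    x ∈ c.L k ↔ ∃ i, c.lo k ≤ i ∧ i < c.hi k ∧ x ∈ segment ℝ (c.P i) (c.P (i + 1)) := by
  unfold L
  simp only [mem_iUnion, mem_Ico, exists_prop, and_assoc]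

/-- a point of a path lies weakly below the highest vertex -/
theorem L_le {k : ℕ} {x : Plane} {r : ℝ} (hx : x ∈ c.L k)
    (h : ∀ i, c.lo k ≤ i → i ≤ c.hi k → c.Y i ≤ r) : x 1 ≤ r := by
  obtain ⟨i, h1, h2, hx⟩ := mem_L.1 hx
  exact seg_le hx (by simpa using h i h1 h2.le) (by simpa using h (i + 1) (by omega) h2)

theorem le_L {k : ℕ} {x : Plane} {r : ℝ} (hx : x ∈ c.L k)
    (h : ∀ i, c.lo k ≤ i → i ≤ c.hi k → r ≤ c.Y i) : r ≤ x 1 := by
  obtain ⟨i, h1, h2, hx⟩ := mem_L.1 hx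
  exact le_seg hx (by simpa using h i h1 h2.le) (by simpa using h (i + 1) (by omega) h2)

theorem L_lt_L {k l : ℕ} (hkl : k < l) (hl : l < c.n) {x y : Plane} (hx : x ∈ c.L k)
    (hy : y ∈ c.L l) : x 1 < y 1 := by
  -- highest vertex of the `k`-th path
  obtain ⟨m, hm, hmax⟩ := (Finset.Icc (c.lo k) (c.hi k)).exists_max_image c.Y
    ⟨c.lo k, Finset.mem_Icc.2 ⟨le_rfl, (c.lo_lt_hi k).le⟩⟩
  obtain ⟨m', hm', hmin⟩ := (Finset.Icc (c.lo l) (c.hi l)).exists_min_image c.Y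
    ⟨c.lo l, Finset.mem_Icc.2 ⟨le_rfl, (c.lo_lt_hi l).le⟩⟩
  rw [Finset.mem_Icc] at hm hm'
  have h1 : x 1 ≤ c.Y m := L_le hx fun i h1 h2 => hmax i (Finset.mem_Icc.2 ⟨h1, h2⟩)
  have h2 : c.Y m' ≤ y 1 := le_L hy fun i h1 h2 => hmin i (Finset.mem_Icc.2 ⟨h1, h2⟩)
  exact h1.trans_lt ((sepY hkl hl hm.1 hm.2 hm'.1 hm'.2).trans_le h2)

theorem L_ne {k l : ℕ} (hk : k < c.n) (hl : l < c.n) (hkl : k ≠ l) {x : Plane} (hx : x ∈ c.L k)
    (hy : x ∈ c.L l) : False := by
  rcases lt_or_gt_of_ne hkl with h | h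
  · exact lt_irrefl _ (L_lt_L h hl hx hy)
  · exact lt_irrefl _ (L_lt_L h hk hy hx)

theorem segment_subset_L {k i : ℕ} (h1 : c.lo k ≤ i) (h2 : i < c.hi k) :
    segment ℝ (c.P i) (c.P (i + 1)) ⊆ c.L k := fun _ hx => mem_L.2 ⟨i, h1, h2, hx⟩

theorem P_mem_L {k i : ℕ} (h1 : c.lo k ≤ i) (h2 : i ≤ c.hi k) : c.P i ∈ c.L k := by
  rcases h2.lt_or_eq with h | h
  · exact segment_subset_L h1 h (left_mem_segment _ _ _)
  · have := c.lo_lt_hi k
    have h3 : c.P i ∈ segment ℝ (c.P (i - 1)) (c.P (i - 1 + 1)) := by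
      rw [Nat.sub_add_cancel (by omega)]
      exact right_mem_segment _ _ _
    exact segment_subset_L (by omega) (by omega) h3

theorem P_mem_L_iff {k i : ℕ} (hk : k < c.n) (hi' : i < c.N) :
    c.P i ∈ c.L k ↔ c.lo k ≤ i ∧ i ≤ c.hi k := by
  constructor
  · intro h
    obtain ⟨h1, h2⟩ := c.comp_spec i
    by_cases hc : c.comp i = k
    · rw [← hc]; exact ⟨h1, h2⟩
    · exact (L_ne (comp_lt hi') hk hc (P_mem_L h1 h2) h).elim
  · intro h
    exact P_mem_L h.1 h.2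

theorem P_inj {i j : ℕ} (hi' : i < c.N) (hj' : j < c.N) (h : c.P i = c.P j) : i = j := by
  obtain ⟨h1, h2⟩ := c.comp_spec i
  obtain ⟨h3, h4⟩ := c.comp_spec j
  have hc : c.comp i = c.comp j := by
    by_contra hc
    exact L_ne (comp_lt hi') (comp_lt hj') hc (P_mem_L h1 h2) (by rw [h]; exact P_mem_L h3 h4)
  rw [hc] at h1 h2
  have hx : c.X i = c.X j := by
    have := congrArg (fun z : Plane => z 0) h
    simpa using this
  rcases lt_trichotomy i j with h5 | h5 | h5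
  · exact absurd hx (mono (comp_lt hj') h1 h5 h4).ne
  · exact h5
  · exact absurd hx (mono (comp_lt hj') h3 h5 h2).ne'

/-- first coordinates of points of a segment of the drawing -/
theorem seg_bounds {k i : ℕ} (hk : k < c.n) (h1 : c.lo k ≤ i) (h2 : i < c.hi k) {z : Plane}
    (hz : z ∈ segment ℝ (c.P i) (c.P (i + 1))) : c.X i ≤ z 0 ∧ z 0 ≤ c.X (i + 1) := by
  have h : c.X i ≤ c.X (i + 1) := (mono hk h1 (Nat.lt_succ_self i) h2).le
  exact ⟨le_seg hz (by simp) (by simpa using h), seg_le hz (by simpa using h) (by simp)⟩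

theorem eq_right {k i : ℕ} (hk : k < c.n) (h1 : c.lo k ≤ i) (h2 : i < c.hi k) {z : Plane}
    (hz : z ∈ segment ℝ (c.P i) (c.P (i + 1))) (h : c.X (i + 1) ≤ z 0) : z = c.P (i + 1) := by
  obtain ⟨s, t, hs, ht, hst, rfl⟩ := hz
  have hlt : c.X i < c.X (i + 1) := mono hk h1 (Nat.lt_succ_self i) h2
  simp only [PiLp.add_apply, PiLp.smul_apply, smul_eq_mul, P_zero] at h
  have ht' : t = 1 - s := by linarith
  subst ht'
  have hs0 : s = 0 := by
    by_contra hne
    have : 0 < s := lt_of_le_of_ne hs (Ne.symm hne)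
    nlinarith
  rw [hs0]; simp

/-- two segments of the same component -/
theorem inter_same {k i j : ℕ} (hk : k < c.n) (h1 : c.lo k ≤ i) (hij : i < j) (h2 : j < c.hi k)
    {z : Plane} (hz : z ∈ segment ℝ (c.P i) (c.P (i + 1)))
    (hz' : z ∈ segment ℝ (c.P j) (c.P (j + 1))) : j = i + 1 ∧ z = c.P j := by
  have a1 := (seg_bounds hk h1 (by omega) hz).2
  have a2 := (seg_bounds hk (by omega) h2 hz').1
  have hj : j = i + 1 := by
    by_contra hne
    have : c.X (i + 1) < c.X j := mono hk (by omega) (by omega) (by omega)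
    linarith
  subst hj
  exact ⟨rfl, eq_right hk h1 (by omega) hz a2⟩

theorem specialPoints_D : specialPoints c.D = {p | ∃ i < c.N, p = c.P i} := by
  ext p
  constructor
  · rintro (⟨s, hs, hp⟩ | ⟨s, hs, t, ht, hst, hp, hp'⟩)
    · obtain ⟨k, hk, i, h1, h2, rfl⟩ := mem_D.1 hs
      have := hi_lt hk
      rw [Sym2.mem_iff] at hp
      rcases hp with rfl | rfl
      · exact ⟨i, by omega, rfl⟩
      · exact ⟨i + 1, by omega, rfl⟩
    · obtain ⟨k, hk, i, h1, h2, rfl⟩ := mem_D.1 hs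
      obtain ⟨l, hl, j, h3, h4, rfl⟩ := mem_D.1 ht
      rw [seg_mk] at hp hp'
      have hkl : k = l := by
        by_contra hkl
        exact L_ne hk hl hkl (segment_subset_L h1 h2 hp) (segment_subset_L h3 h4 hp')
      subst hkl
      have := hi_lt hk
      rcases lt_trichotomy i j with h | h | h
      · exact ⟨j, by omega, (inter_same hk h1 h h4 hp hp').2⟩
      · exact absurd (by rw [h]) hst
      · exact ⟨i, by omega, (inter_same hk h3 h h2 hp' hp).2⟩
  · rintro ⟨i, hiN, rfl⟩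
    left
    obtain ⟨h1, h2⟩ := c.comp_spec i
    rcases h2.lt_or_eq with h | h
    · exact ⟨s(c.P i, c.P (i + 1)), mem_D.2 ⟨c.comp i, comp_lt hiN, i, h1, h, rfl⟩,
        Sym2.mem_iff.2 (Or.inl rfl)⟩
    · have hlt := c.lo_lt_hi (c.comp i)
      exact ⟨s(c.P (i - 1), c.P (i - 1 + 1)), mem_D.2 ⟨c.comp i, comp_lt hiN, i - 1, by omega,
        by omega, rfl⟩, Sym2.mem_iff.2 (Or.inr (by rw [Nat.sub_add_cancel (by omega)]))⟩

theorem isPlane_D : IsPlane c.D := by
  intro s hs p hp hps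
  obtain ⟨k, hk, i, h1, h2, rfl⟩ := mem_D.1 hs
  rw [specialPoints_D] at hp
  obtain ⟨j, hj, rfl⟩ := hp
  rw [seg_mk] at hps
  have hL := segment_subset_L h1 h2 hps
  rw [P_mem_L_iff hk hj] at hL
  obtain ⟨b1, b2⟩ := seg_bounds hk h1 h2 hps
  rw [P_zero] at b1 b2
  have hj' : j = i ∨ j = i + 1 := by
    by_contra hcon
    push Not at hcon
    rcases Nat.lt_or_ge j i with h | h
    · have : c.X j < c.X i := mono hk hL.1 h (by omega)
      linarith
    · have : c.X (i + 1) < c.X j := mono hk (by omega) (by omega) hL.2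
      linarith
  rw [Sym2.mem_iff]
  rcases hj' with rfl | rfl
  · exact Or.inl rfl
  · exact Or.inr rfl

theorem not_parallel {k i : ℕ} (hk : k < c.n) (h1 : c.lo k ≤ i) (h2 : i + 2 ≤ c.hi k) :
    ¬ Parallel s(c.P i, c.P (i + 1)) s(c.P (i + 1), c.P (i + 2)) := by
  rintro ⟨a, b, e, d, hs, ht, r, hr⟩
  have h0 := congrArg (fun z : Plane => z 0) hr
  have h1' := congrArg (fun z : Plane => z 1) hr
  simp only [PiLp.sub_apply, PiLp.smul_apply, smul_eq_mul] at h0 h1'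
  have hc := c.cross' k hk i h1 h2
  apply hc
  rw [Sym2.eq_iff] at hs ht
  rcases hs with ⟨rfl, rfl⟩ | ⟨rfl, rfl⟩
  · rcases ht with ⟨rfl, rfl⟩ | ⟨rfl, rfl⟩ <;>
      simp only [P_zero, P_one] at h0 h1' <;> linear_combination
        (c.Y (i + 2) - c.Y (i + 1)) * h0 - (c.X (i + 2) - c.X (i + 1)) * h1'
  · rcases ht with ⟨rfl, rfl⟩ | ⟨rfl, rfl⟩ <;>
      simp only [P_zero, P_one] at h0 h1' <;> linear_combination
        -(c.Y (i + 2) - c.Y (i + 1)) * h0 + (c.X (i + 2) - c.X (i + 1)) * h1'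

theorem isDrawing_D : IsDrawing c.D := by
  refine ⟨?_, ?_, ?_⟩
  · intro s hs hd
    obtain ⟨k, hk, i, h1, h2, rfl⟩ := mem_D.1 hs
    rw [Sym2.mk_isDiag_iff] at hd
    have := hi_lt hk
    have := P_inj (by omega) (by omega) hd
    omega
  · intro s hs t ht hst hne
    obtain ⟨k, hk, i, h1, h2, rfl⟩ := mem_D.1 hs
    obtain ⟨l, hl, j, h3, h4, rfl⟩ := mem_D.1 ht
    rw [seg_mk, seg_mk] at hne ⊢
    obtain ⟨z, hz, hz'⟩ := hne
    have hkl : k = l := by
      by_contra hkl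
      exact L_ne hk hl hkl (segment_subset_L h1 h2 hz) (segment_subset_L h3 h4 hz')
    subst hkl
    rcases lt_trichotomy i j with h | h | h
    · obtain ⟨rfl, hzj⟩ := inter_same hk h1 h h4 hz hz'
      refine ⟨⟨c.P (i + 1), ?_⟩, not_parallel hk h1 (by omega)⟩
      refine Subset.antisymm (fun w hw => (inter_same hk h1 h h4 hw.1 hw.2).2) ?_
      rintro w rfl
      exact ⟨right_mem_segment _ _ _, left_mem_segment _ _ _⟩
    · exact absurd (by rw [h]) hst
    · obtain ⟨rfl, hzj⟩ := inter_same hk h3 h h2 hz' hz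
      refine ⟨⟨c.P (j + 1), ?_⟩, ?_⟩
      · refine Subset.antisymm (fun w hw => (inter_same hk h3 h h2 hw.2 hw.1).2) ?_
        rintro w rfl
        exact ⟨left_mem_segment _ _ _, right_mem_segment _ _ _⟩
      · rintro ⟨a, b, e, d, hs', ht', r, hr⟩
        have hcd : e ≠ d := by
          rintro rfl
          rw [Sym2.eq_iff] at ht'
          have := hi_lt hk
          rcases ht' with ⟨h5, h6⟩ | ⟨h5, h6⟩
          · have := P_inj (i := j) (j := j + 1) (by omega) (by omega) (h5.trans h6.symm)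
            omega
          · have := P_inj (i := j) (j := j + 1) (by omega) (by omega) (h5.trans h6.symm)
            omega
        have hab : a ≠ b := by
          rintro rfl
          rw [Sym2.eq_iff] at hs'
          have := hi_lt hk
          rcases hs' with ⟨h5, h6⟩ | ⟨h5, h6⟩
          · have := P_inj (i := j + 1) (j := j + 1 + 1) (by omega) (by omega) (h5.trans h6.symm)
            omega
          · have := P_inj (i := j + 1) (j := j + 1 + 1) (by omega) (by omega) (h5.trans h6.symm)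
            omega
        have hr0 : r ≠ 0 := by
          rintro rfl
          rw [zero_smul, sub_eq_zero] at hr
          exact hab hr.symm
        exact not_parallel hk h3 (by omega) ⟨e, d, a, b, ht', hs', r⁻¹, by
          rw [hr, smul_smul, inv_mul_cancel₀ hr0, one_smul]⟩
  · intro p hp q hq p' hp' q' hq' hpq hpq' hd
    rw [specialPoints_D] at hp hq hp' hq'
    obtain ⟨i, hiN, rfl⟩ := hp
    obtain ⟨j, hjN, rfl⟩ := hq
    obtain ⟨k, hkN, rfl⟩ := hp'
    obtain ⟨l, hlN, rfl⟩ := hq'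
    rw [dist_P_eq] at hd
    have hij : i ≠ j := fun h => hpq (by rw [h])
    have hkl : k ≠ l := fun h => hpq' (by rw [h])
    rw [Sym2.eq_iff]
    rcases lt_or_gt_of_ne hij with h | h <;> rcases lt_or_gt_of_ne hkl with h' | h'
    · obtain ⟨rfl, rfl⟩ := c.dne' i j k l h hjN h' hlN hd
      exact Or.inl ⟨rfl, rfl⟩
    · rw [c.d2_comm k l] at hd
      obtain ⟨rfl, rfl⟩ := c.dne' i j l k h hjN h' hkN hd
      exact Or.inr ⟨rfl, rfl⟩
    · rw [c.d2_comm i j] at hd
      obtain ⟨rfl, rfl⟩ := c.dne' j i k l h hiN h' hlN hd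
      exact Or.inr ⟨rfl, rfl⟩
    · rw [c.d2_comm i j, c.d2_comm k l] at hd
      obtain ⟨rfl, rfl⟩ := c.dne' j i l k h hiN h' hkN hd
      exact Or.inl ⟨rfl, rfl⟩

theorem carrier_D : carrier c.D = ⋃ k ∈ Iio c.n, c.L k := by
  ext x
  unfold carrier
  simp only [mem_iUnion, mem_Iio, exists_prop]
  constructor
  · rintro ⟨s, hs, hx⟩
    obtain ⟨k, hk, i, h1, h2, rfl⟩ := mem_D.1 hs
    rw [seg_mk] at hx
    exact ⟨k, hk, segment_subset_L h1 h2 hx⟩
  · rintro ⟨k, hk, hx⟩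
    obtain ⟨i, h1, h2, hx⟩ := mem_L.1 hx
    exact ⟨s(c.P i, c.P (i + 1)), mem_D.2 ⟨k, hk, i, h1, h2, rfl⟩, by rw [seg_mk]; exact hx⟩

theorem isClosed_L (c : Cfg) (k : ℕ) : IsClosed (c.L k) := by
  unfold L
  refine (finite_Ico _ _).isClosed_biUnion fun i _ => ?_
  rw [segment_eq_image_lineMap]
  exact (isCompact_Icc.image (AffineMap.lineMap_continuous)).isClosed

theorem isPreconnected_L (c : Cfg) (k : ℕ) : IsPreconnected (c.L k) := by
  unfold L
  refine IsPreconnected.biUnion_of_chain ordConnected_Ico (fun i _ =>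
    (convex_segment _ _).isPreconnected) fun i _ _ => ?_
  exact ⟨c.P (i + 1), right_mem_segment _ _ _, left_mem_segment _ _ _⟩

theorem component_eq {k : ℕ} (hk : k < c.n) {x : Plane} (hx : x ∈ c.L k) :
    connectedComponentIn (carrier c.D) x = c.L k := by
  have hsub : c.L k ⊆ carrier c.D := by
    rw [carrier_D]
    exact fun y hy => mem_iUnion₂.2 ⟨k, hk, hy⟩
  refine Subset.antisymm ?_ ((c.isPreconnected_L k).subset_connectedComponentIn hx hsub)
  have hpre : IsPreconnected (connectedComponentIn (carrier c.D) x) :=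
    isPreconnected_connectedComponentIn
  have hM : IsClosed (⋃ l ∈ Iio c.n \ {k}, c.L l) :=
    ((finite_Iio c.n).subset sdiff_subset).isClosed_biUnion fun l _ => c.isClosed_L l
  have hcov : connectedComponentIn (carrier c.D) x ⊆ c.L k ∪ ⋃ l ∈ Iio c.n \ {k}, c.L l := by
    intro y hy
    have hy' := connectedComponentIn_subset _ _ hy
    rw [carrier_D] at hy'
    obtain ⟨l, hl, hyl⟩ := mem_iUnion₂.1 hy'
    by_cases h : l = k
    · left; rw [← h]; exact hyl
    · right; exact mem_iUnion₂.2 ⟨l, ⟨hl, h⟩, hyl⟩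
  have hdisj : connectedComponentIn (carrier c.D) x ∩ (c.L k ∩ ⋃ l ∈ Iio c.n \ {k}, c.L l) = ∅ := by
    rw [eq_empty_iff_forall_notMem]
    rintro y ⟨-, hyk, hyl⟩
    obtain ⟨l, hl, hyl⟩ := mem_iUnion₂.1 hyl
    exact L_ne hk hl.1 (fun h => hl.2 h.symm) hyk hyl
  rcases isPreconnected_iff_subset_of_disjoint_closed.1 hpre _ _ (c.isClosed_L k) hM hcov hdisj
    with h | h
  · exact h
  · exfalso
    have hxx : x ∈ connectedComponentIn (carrier c.D) x := mem_connectedComponentIn (hsub hx)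
    obtain ⟨l, hl, hyl⟩ := mem_iUnion₂.1 (h hxx)
    exact L_ne hk hl.1 (fun h => hl.2 h.symm) hx hyl

theorem isComponent_iff (K : Set Plane) : IsComponent c.D K ↔ ∃ k < c.n, K = c.L k := by
  constructor
  · rintro ⟨x, hx, rfl⟩
    rw [carrier_D] at hx
    obtain ⟨k, hk, hx⟩ := mem_iUnion₂.1 hx
    exact ⟨k, hk, component_eq hk hx⟩
  · rintro ⟨k, hk, rfl⟩
    have hx : c.P (c.lo k) ∈ c.L k := P_mem_L le_rfl (c.lo_lt_hi k).le
    refine ⟨c.P (c.lo k), ?_, (component_eq hk hx).symm⟩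
    rw [carrier_D]
    exact mem_iUnion₂.2 ⟨k, hk, hx⟩

/-- `Sees` in terms of the distances between the vertices -/
theorem sees_iff {k l : ℕ} (hk : k < c.n) (hl : l < c.n) :
    Sees c.D (c.L k) (c.L l) ↔ ∃ i, c.lo k ≤ i ∧ i ≤ c.hi k ∧ ∃ m, c.lo l ≤ m ∧ m ≤ c.hi l ∧
      ∀ r, c.lo k ≤ r → r ≤ c.hi k → r ≠ i → c.d2 i m < c.d2 i r := by
  constructor
  · rintro ⟨p, hp, hpk, a, ⟨ha, hak, hap, hmin⟩, q, hq, hql, hlt⟩
    rw [specialPoints_D] at hp ha hq
    obtain ⟨i, hiN, rfl⟩ := hp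
    obtain ⟨j, hjN, rfl⟩ := ha
    obtain ⟨m, hmN, rfl⟩ := hq
    rw [P_mem_L_iff hk hiN] at hpk
    rw [P_mem_L_iff hk hjN] at hak
    rw [P_mem_L_iff hl hmN] at hql
    refine ⟨i, hpk.1, hpk.2, m, hql.1, hql.2, fun r hr1 hr2 hri => ?_⟩
    have hrN : r < c.N := by
      have := hi_lt hk
      omega
    refine lt_of_lt_of_le (c.dist_P_lt.1 hlt) (c.dist_P_le.1 (hmin (c.P r) ?_
      ((P_mem_L_iff hk hrN).2 ⟨hr1, hr2⟩) fun h => hri (P_inj hrN hiN h)))
    rw [specialPoints_D]; exact ⟨r, hrN, rfl⟩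
  · rintro ⟨i, hi1, hi2, m, hm1, hm2, hall⟩
    have hNk : ∀ {k r : ℕ}, k < c.n → r ≤ c.hi k → r < c.N := by
      intro k r hk hr
      have := hi_lt hk
      omega
    have hs : ∀ {k r : ℕ}, k < c.n → r ≤ c.hi k → c.P r ∈ specialPoints c.D := by
      intro k r hk hr
      rw [specialPoints_D]; exact ⟨r, hNk hk hr, rfl⟩
    -- nearest vertex of the same path
    have hne : ((Finset.Icc (c.lo k) (c.hi k)).erase i).Nonempty := by
      have := c.lo_lt_hi k
      by_cases h : i = c.lo k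
      · exact ⟨c.hi k, Finset.mem_erase.2 ⟨by omega, Finset.mem_Icc.2 ⟨by omega, le_rfl⟩⟩⟩
      · exact ⟨c.lo k, Finset.mem_erase.2 ⟨fun h' => h h'.symm, Finset.mem_Icc.2
          ⟨le_rfl, by omega⟩⟩⟩
    obtain ⟨j, hj, hjmin⟩ := Finset.exists_min_image _ (fun r => c.d2 i r) hne
    rw [Finset.mem_erase, Finset.mem_Icc] at hj
    refine ⟨c.P i, hs hk hi2, P_mem_L hi1 hi2, c.P j,
      ⟨hs hk hj.2.2, P_mem_L hj.2.1 hj.2.2,
        fun h => hj.1 (P_inj (hNk hk hj.2.2) (hNk hk hi2) h), ?_⟩,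
      c.P m, hs hl hm2, P_mem_L hm1 hm2, c.dist_P_lt.2 (hall j hj.2.1 hj.2.2 hj.1)⟩
    intro r hr hrk hri
    rw [specialPoints_D] at hr
    obtain ⟨q, hqN, rfl⟩ := hr
    rw [P_mem_L_iff hk hqN] at hrk
    exact c.dist_P_le.2 (hjmin q (Finset.mem_erase.2 ⟨fun h => hri (by rw [h]),
      Finset.mem_Icc.2 hrk⟩))

theorem L_inj {k l : ℕ} (hk : k < c.n) (hl : l < c.n) (h : c.L k = c.L l) : k = l := by
  by_contra hkl
  have hx : c.P (c.lo k) ∈ c.L k := P_mem_L le_rfl (c.lo_lt_hi k).le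
  exact L_ne hk hl hkl hx (h ▸ hx)

/-- the conflict graph of a configuration -/
theorem isConflictGraph (G : SimpleGraph (Fin c.n))
    (h : ∀ u v : Fin c.n, u ≠ v → (G.Adj u v ↔ ∃ i, c.lo u ≤ i ∧ i ≤ c.hi u ∧
      ∃ m, c.lo v ≤ m ∧ m ≤ c.hi v ∧
        ∀ r, c.lo u ≤ r → r ≤ c.hi u → r ≠ i → c.d2 i m < c.d2 i r)) : IsConflictGraph G := by
  refine ⟨c.D, isDrawing_D, isPlane_D, fun v => c.L v, ?_, ?_, ?_⟩
  · intro u v h
    exact Fin.ext (L_inj u.2 v.2 h)
  · intro K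
    rw [isComponent_iff]
    constructor
    · rintro ⟨k, hk, rfl⟩
      exact ⟨⟨k, hk⟩, rfl⟩
    · rintro ⟨v, rfl⟩
      exact ⟨v, v.2, rfl⟩
  · intro u v
    by_cases huv : u = v
    · subst huv
      exact ⟨fun h => (G.loopless.irrefl u h).elim, fun h => absurd rfl h.1⟩
    · have h1 := h u v huv
      rw [← sees_iff u.2 v.2] at h1
      have h2 := h v u (Ne.symm huv)
      rw [← sees_iff v.2 u.2] at h2
      constructor
      · exact fun h => ⟨huv, Or.inl (h1.1 h)⟩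
      · rintro ⟨-, h | h⟩
        · exact h1.2 h
        · exact (h2.2 h).symm

end Cfg

end Pool.Agent.ConfAll48
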